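import Mathlib
import Pool.Agent.W64.DM.Stm

/-!
# Project DM: the second moment (S_SEC)
-/

set_option autoImplicit false

namespace Pool.Agent.W60.DM.Sec

open MeasureTheory Set Filter Pool.Agent.W64.DM

theorem mem_FV {d R : ℕ} {i0 : Fin d} {v : Ix d} (h : v ∈ FV d R i0) :
    v.1 ∈ AA d R ∧ v.2.1 ∈ Finset.Ico R (2 * R) ∧ v.2.2.1 ∈ bx v.1 ∧
      v.2.2.2 ∈ Finset.Ico (2 ^ v.2.1) (2 ^ (v.2.1 + 1)) ∧ Nat.Coprime (v.2.2.1 i0) v.2.2.2 := by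
  unfold FV at h
  simp only [Finset.mem_biUnion, Finset.mem_image, Finset.mem_filter, Finset.mem_product] at h
  obtain ⟨a, ha, b, hb, q, ⟨⟨hq1, hq2⟩, hq3⟩, rfl⟩ := h
  exact ⟨ha, hb, hq1, hq2, hq3⟩

theorem sum_biUnion_le' {α β : Type*} [DecidableEq β] (s : Finset α) (t : α → Finset β)
    (f : β → ℝ) (hf : ∀ x, 0 ≤ f x) :
    ∑ x ∈ s.biUnion t, f x ≤ ∑ a ∈ s, ∑ x ∈ t a, f x := by
  classical
  induction s using Finset.induction_on with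
  | empty => simp
  | insert a s ha ih =>
    rw [Finset.biUnion_insert, Finset.sum_insert ha]
    have h1 : ∑ x ∈ t a ∪ s.biUnion t, f x ≤ ∑ x ∈ t a, f x + ∑ x ∈ s.biUnion t, f x := by
      have := Finset.sum_union_inter (s₁ := t a) (s₂ := s.biUnion t) (f := f)
      have h0 : 0 ≤ ∑ x ∈ t a ∩ s.biUnion t, f x := Finset.sum_nonneg fun x _ => hf x
      linarith
    linarith

theorem sum_FV_le {d R : ℕ} (i0 : Fin d) (f : Ix d → ℝ) (hf : ∀ x, 0 ≤ f x) :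
    ∑ v ∈ FV d R i0, f v ≤ ∑ a ∈ AA d R, ∑ b ∈ Finset.Ico R (2 * R),
      ∑ n ∈ Finset.Ico (2 ^ b) (2 ^ (b + 1)), ∑ m ∈ bx a, f (a, b, m, n) := by
  unfold FV
  refine (sum_biUnion_le' _ _ f hf).trans (Finset.sum_le_sum fun a _ => ?_)
  refine (sum_biUnion_le' _ _ f hf).trans (Finset.sum_le_sum fun b _ => ?_)
  rw [Finset.sum_image]
  · refine (Finset.sum_le_sum_of_subset_of_nonneg (Finset.filter_subset _ _)
      (fun x _ _ => hf _)).trans ?_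
    rw [Finset.sum_product_right]
  · intro x _ y _ hxy
    simp only [Prod.mk.injEq, true_and] at hxy
    exact Prod.ext hxy.1 hxy.2

theorem rad_pos {d R : ℕ} (hR : 1 ≤ R) (a : Fin d → ℕ) (b : ℕ) : 0 < rad d R a b := by
  unfold rad
  have h1 : (0 : ℝ) < (R : ℝ) := by exact_mod_cast hR
  positivity

/-- value of `rad * 2^(sum a + b)` -/
theorem rad_mul {d R : ℕ} (a : Fin d → ℕ) (b : ℕ) :
    rad d R a b * 2 ^ (∑ i, a i + b) =
      1 / (((4 * d + 2 : ℝ) * R) ^ (d + 1) * 2 ^ (d + 1)) := by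
  unfold rad
  rw [pow_add (2 : ℝ) (∑ i, a i + b) (d + 1)]
  have h2 : (2 : ℝ) ^ (∑ i, a i + b) ≠ 0 := by positivity
  rw [div_mul_eq_mul_div, one_mul]
  rw [mul_comm ((2 : ℝ) ^ (∑ i, a i + b)) (2 ^ (d + 1)), ← mul_assoc]
  rw [div_mul_eq_div_div_swap] 
  rw [div_self h2]

theorem rad_le {d R : ℕ} (hR : 1 ≤ R) (hd : 1 ≤ d) (a : Fin d → ℕ) (b : ℕ)
    (ha : ∀ i, 3 * R ≤ a i) (hb : R ≤ b) : rad d R a b * 2 ^ (2 * R) ≤ 1 / 8 := by
  have h1 : (1 : ℝ) ≤ (R : ℝ) := by exact_mod_cast hR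
  have hs : 3 * R ≤ ∑ i, a i := by
    have : ∑ _i : Fin d, 3 * R ≤ ∑ i, a i := Finset.sum_le_sum fun i _ => ha i
    simp at this
    nlinarith
  unfold rad
  rw [div_mul_eq_mul_div, one_mul, div_le_div_iff₀ (by positivity) (by norm_num)]
  have h3 : (1 : ℝ) ≤ ((4 * d + 2 : ℝ) * R) ^ (d + 1) := by
    apply one_le_pow₀
    have : (0 : ℝ) ≤ (d : ℝ) := by positivity
    nlinarith
  have h4 : (2 : ℝ) ^ (2 * R) * 8 ≤ 2 ^ (∑ i, a i + b + (d + 1)) := by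
    have : (2 : ℝ) ^ (2 * R) * 8 = 2 ^ (2 * R + 3) := by rw [pow_add]; norm_num
    rw [this]
    apply pow_le_pow_right₀ (by norm_num)
    omega
  calc (2 : ℝ) ^ (2 * R) * 8 ≤ 2 ^ (∑ i, a i + b + (d + 1)) := h4
    _ ≤ 1 * (((4 * d + 2 : ℝ) * R) ^ (d + 1) * 2 ^ (∑ i, a i + b + (d + 1))) := by
      rw [one_mul]
      exact le_mul_of_one_le_left (by positivity) h3

theorem dotp_ww {d : ℕ} (α : Fin d → ℝ) (p p' : ℕ) (m m' : Fin d → ℕ) :
    dotp α (ww p p' m m') = p' * dotp α (fun i => (m i : ℤ)) - p * dotp α (fun i => (m' i : ℤ)) := by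
  unfold dotp ww
  rw [Finset.mul_sum, Finset.mul_sum, ← Finset.sum_sub_distrib]
  refine Finset.sum_congr rfl fun i _ => ?_
  push_cast
  ring

theorem pow_box_eq {a a' m : ℕ} (h1 : 2 ^ a ≤ m) (h2 : m < 2 ^ (a + 1)) (h3 : 2 ^ a' ≤ m)
    (h4 : m < 2 ^ (a' + 1)) : a = a' := by
  have e1 : a < a' + 1 := (Nat.pow_lt_pow_iff_right (a := 2) (by norm_num)).1 (lt_of_le_of_lt h1 h4)
  have e2 : a' < a + 1 := (Nat.pow_lt_pow_iff_right (a := 2) (by norm_num)).1 (lt_of_le_of_lt h3 h2)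
  omega

theorem mem_bx {d : ℕ} {a m : Fin d → ℕ} (h : m ∈ bx a) (i : Fin d) :
    2 ^ a i ≤ m i ∧ m i < 2 ^ (a i + 1) := by
  unfold bx at h
  rw [Fintype.mem_piFinset] at h
  exact Finset.mem_Ico.1 (h i)

/-- two different elements of the family have `w ≠ 0`. -/
theorem ww_ne {d R : ℕ} {i0 : Fin d} {v v' : Ix d} (h : v ∈ FV d R i0) (h' : v' ∈ FV d R i0)
    (hne : v ≠ v') : ww (v.2.2.2 / Nat.gcd v.2.2.2 v'.2.2.2) (v'.2.2.2 / Nat.gcd v.2.2.2 v'.2.2.2)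
      v.2.2.1 v'.2.2.1 ≠ 0 := by
  intro h0
  obtain ⟨a, b, m, n⟩ := v
  obtain ⟨a', b', m', n'⟩ := v'
  obtain ⟨ha, hb, hm, hn, hc⟩ := mem_FV h
  obtain ⟨ha', hb', hm', hn', hc'⟩ := mem_FV h'
  dsimp only at ha hb hm hn hc ha' hb' hm' hn' hc' h0
  have hn0 : 0 < n := lt_of_lt_of_le (by positivity) (Finset.mem_Ico.1 hn).1
  have hn0' : 0 < n' := lt_of_lt_of_le (by positivity) (Finset.mem_Ico.1 hn').1
  have hg : 0 < Nat.gcd n n' := Nat.gcd_pos_of_pos_left _ hn0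
  obtain ⟨p, hp⟩ := Nat.gcd_dvd_left n n'
  obtain ⟨p', hp'⟩ := Nat.gcd_dvd_right n n'
  have ep : n / Nat.gcd n n' = p := Nat.div_eq_of_eq_mul_right hg hp
  have ep' : n' / Nat.gcd n n' = p' := Nat.div_eq_of_eq_mul_right hg hp'
  rw [ep, ep'] at h0
  have hi : ∀ i, p' * m i = p * m' i := by
    intro i
    have := congrFun h0 i
    simp only [ww, Pi.zero_apply] at this
    have h2 : (p' : ℤ) * m i = p * m' i := by linarith
    exact_mod_cast h2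
  have hi2 : ∀ i, n' * m i = n * m' i := by
    intro i
    calc n' * m i = Nat.gcd n n' * (p' * m i) := by rw [← mul_assoc, ← hp']
      _ = Nat.gcd n n' * (p * m' i) := by rw [hi i]
      _ = n * m' i := by rw [← mul_assoc, ← hp]
  have d1 : n ∣ n' := by
    have : n ∣ n' * m i0 := ⟨m' i0, hi2 i0⟩
    exact (Nat.Coprime.dvd_of_dvd_mul_right hc.symm this)
  have d2 : n' ∣ n := by
    have : n' ∣ n * m' i0 := ⟨m i0, (hi2 i0).symm⟩
    exact (Nat.Coprime.dvd_of_dvd_mul_right hc'.symm this)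
  have en : n = n' := Nat.dvd_antisymm d1 d2
  subst en
  have em : m = m' := by
    funext i
    exact Nat.eq_of_mul_eq_mul_left hn0 (hi2 i)
  subst em
  have ea : a = a' := by
    funext i
    exact pow_box_eq (mem_bx hm i).1 (mem_bx hm i).2 (mem_bx hm' i).1 (mem_bx hm' i).2
  have eb : b = b' := pow_box_eq (Finset.mem_Ico.1 hn).1 (Finset.mem_Ico.1 hn).2
    (Finset.mem_Ico.1 hn').1 (Finset.mem_Ico.1 hn').2
  subst ea; subst eb
  exact hne rfl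

open Classical in
/-- the bound for the overlap of `v` and `v'`. -/
noncomputable def FF {d : ℕ} (α : Fin d → ℝ) (R : ℕ) (v v' : Ix d) : ℝ :=
  if ww (v.2.2.2 / Nat.gcd v.2.2.2 v'.2.2.2) (v'.2.2.2 / Nat.gcd v.2.2.2 v'.2.2.2)
      v.2.2.1 v'.2.2.1 ≠ 0 ∧
    nn (dotp α (ww (v.2.2.2 / Nat.gcd v.2.2.2 v'.2.2.2) (v'.2.2.2 / Nat.gcd v.2.2.2 v'.2.2.2)
      v.2.2.1 v'.2.2.1)) <
      ((v'.2.2.2 / Nat.gcd v.2.2.2 v'.2.2.2 : ℕ) : ℝ) * rad d R v.1 v.2.1 +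
      ((v.2.2.2 / Nat.gcd v.2.2.2 v'.2.2.2 : ℕ) : ℝ) * rad d R v'.1 v'.2.1 then
    4 * min (rad d R v.1 v.2.1 / (v.2.2.2 / Nat.gcd v.2.2.2 v'.2.2.2 : ℕ))
      (rad d R v'.1 v'.2.1 / (v'.2.2.2 / Nat.gcd v.2.2.2 v'.2.2.2 : ℕ)) else 0

theorem rad_nonneg {d R : ℕ} (a : Fin d → ℕ) (b : ℕ) : 0 ≤ rad d R a b := by
  unfold rad
  positivity

theorem FF_nonneg {d : ℕ} (α : Fin d → ℝ) (R : ℕ) (v v' : Ix d) : 0 ≤ FF α R v v' := by
  unfold FF
  have h1 := rad_nonneg (R := R) v.1 v.2.1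
  have h2 := rad_nonneg (R := R) v'.1 v'.2.1
  split_ifs
  · positivity
  · exact le_rfl

/-- overlap bound. -/
theorem ovl {d : ℕ} (hO : S_OVL) (α : Fin d → ℝ) (R : ℕ) (hR : 1 ≤ R) (i0 : Fin d) {v v' : Ix d}
    (h : v ∈ FV d R i0) (h' : v' ∈ FV d R i0) (hne : v ≠ v') :
    (volume (EE α R v ∩ EE α R v')).toReal ≤ FF α R v v' := by
  have hw := ww_ne h h' hne
  obtain ⟨a, b, m, n⟩ := v
  obtain ⟨a', b', m', n'⟩ := v'
  obtain ⟨ha, hb, hm, hn, hc⟩ := mem_FV h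
  obtain ⟨ha', hb', hm', hn', hc'⟩ := mem_FV h'
  dsimp only at ha hb hm hn hc ha' hb' hm' hn' hc' hw
  have hd : 1 ≤ d := Nat.succ_le_of_lt (lt_of_le_of_lt (Nat.zero_le _) i0.2)
  have hn0 : 0 < n := lt_of_lt_of_le (by positivity) (Finset.mem_Ico.1 hn).1
  have hn0' : 0 < n' := lt_of_lt_of_le (by positivity) (Finset.mem_Ico.1 hn').1
  have hg : 0 < Nat.gcd n n' := Nat.gcd_pos_of_pos_left _ hn0
  set g := Nat.gcd n n' with hgdef
  set p := n / g with hp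
  set p' := n' / g with hp'
  have ep : g * p = n := Nat.mul_div_cancel' (Nat.gcd_dvd_left n n')
  have ep' : g * p' = n' := Nat.mul_div_cancel' (Nat.gcd_dvd_right n n')
  have hp1 : 1 ≤ p := by
    rcases Nat.eq_zero_or_pos p with h0 | h0
    · rw [h0] at ep; omega
    · exact h0
  have hp1' : 1 ≤ p' := by
    rcases Nat.eq_zero_or_pos p' with h0 | h0
    · rw [h0] at ep'; omega
    · exact h0
  have hcop : Nat.Coprime p p' := Nat.coprime_div_gcd_div_gcd hg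
  have haR : ∀ i, 3 * R ≤ a i := fun i => by
    have := (Fintype.mem_piFinset.1 ha) i
    exact (Finset.mem_Ico.1 this).1
  have haR' : ∀ i, 3 * R ≤ a' i := fun i => by
    have := (Fintype.mem_piFinset.1 ha') i
    exact (Finset.mem_Ico.1 this).1
  have r1 := rad_le hR hd a b haR (Finset.mem_Ico.1 hb).1
  have r2 := rad_le hR hd a' b' haR' (Finset.mem_Ico.1 hb').1
  have q1 := rad_pos hR a b
  have q2 := rad_pos hR a' b'
  have hpn : (p : ℝ) ≤ 2 ^ (2 * R) := by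
    have h1 : p ≤ n := Nat.div_le_self _ _
    have h2 : n < 2 ^ (b + 1) := (Finset.mem_Ico.1 hn).2
    have h3 : 2 ^ (b + 1) ≤ 2 ^ (2 * R) :=
      Nat.pow_le_pow_right (by norm_num) (by have := (Finset.mem_Ico.1 hb).2; omega)
    have : p ≤ 2 ^ (2 * R) := by omega
    exact_mod_cast this
  have hpn' : (p' : ℝ) ≤ 2 ^ (2 * R) := by
    have h1 : p' ≤ n' := Nat.div_le_self _ _
    have h2 : n' < 2 ^ (b' + 1) := (Finset.mem_Ico.1 hn').2
    have h3 : 2 ^ (b' + 1) ≤ 2 ^ (2 * R) :=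
      Nat.pow_le_pow_right (by norm_num) (by have := (Finset.mem_Ico.1 hb').2; omega)
    have : p' ≤ 2 ^ (2 * R) := by omega
    exact_mod_cast this
  have hlt : 2 * (p' * rad d R a b + p * rad d R a' b') < 1 := by
    have e1 : (p' : ℝ) * rad d R a b ≤ 1 / 8 := by nlinarith
    have e2 : (p : ℝ) * rad d R a' b' ≤ 1 / 8 := by nlinarith
    linarith
  have key := hO g p p' (dotp α (fun i => (m i : ℤ))) (dotp α (fun i => (m' i : ℤ)))
    (rad d R a b) (rad d R a' b') hg hp1 hp1' hcop q1 q2 hlt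
  rw [← dotp_ww, ep, ep'] at key
  have hset : EE α R (a, b, m, n) ∩ EE α R (a', b', m', n') =
      Icc (0 : ℝ) 1 ∩ {t : ℝ | nn (dotp α (fun i => (m i : ℤ)) + (n : ℕ) * t) < rad d R a b ∧
        nn (dotp α (fun i => (m' i : ℤ)) + (n' : ℕ) * t) < rad d R a' b'} := by
    ext t
    simp only [EE, mem_inter_iff, Set.mem_ofPred_eq]
    tauto
  rw [hset]
  refine key.trans ?_
  unfold FF
  dsimp only
  rw [← hgdef, ← hp, ← hp']
  by_cases hnn : nn (dotp α (ww p p' m m')) < p' * rad d R a b + p * rad d R a' b'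
  · rw [if_pos hnn, if_pos ⟨hw, hnn⟩]
  · rw [if_neg hnn, if_neg (fun hh => hnn hh.2)]

/-- the inner sum over `m, m'`. -/
theorem inner {d : ℕ} (α : Fin d → ℝ) (R : ℕ) (hR : 1 ≤ R) (a a' : Fin d → ℕ) (b b' n n' : ℕ)
    (hn : 0 < n) (hn' : 0 < n') (K : ℝ) (hK : 0 ≤ K)
    (hcnt : (cnt α (n / Nat.gcd n n') (n' / Nat.gcd n n') a a'
      ((n' / Nat.gcd n n' : ℕ) * rad d R a b + (n / Nat.gcd n n' : ℕ) * rad d R a' b') : ℝ) ≤
      K * ((n' / Nat.gcd n n' : ℕ) * rad d R a b + (n / Nat.gcd n n' : ℕ) * rad d R a' b') *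
        2 ^ (∑ i, a i + ∑ i, a' i)) :
    ∑ m ∈ bx a, ∑ m' ∈ bx a', FF α R (a, b, m, n) (a', b', m', n') ≤
      8 * K * (rad d R a b * rad d R a' b') * 2 ^ (∑ i, a i + ∑ i, a' i) := by
  classical
  have hg : 0 < Nat.gcd n n' := Nat.gcd_pos_of_pos_left _ hn
  set g := Nat.gcd n n' with hgdef
  set p := n / g with hp
  set p' := n' / g with hp'
  have ep : g * p = n := Nat.mul_div_cancel' (Nat.gcd_dvd_left n n')
  have ep' : g * p' = n' := Nat.mul_div_cancel' (Nat.gcd_dvd_right n n')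
  have hp1 : 1 ≤ p := by
    rcases Nat.eq_zero_or_pos p with h0 | h0
    · rw [h0] at ep; omega
    · exact h0
  have hp1' : 1 ≤ p' := by
    rcases Nat.eq_zero_or_pos p' with h0 | h0
    · rw [h0] at ep'; omega
    · exact h0
  have q1 := rad_pos hR a b
  have q2 := rad_pos hR a' b'
  set r := rad d R a b
  set r' := rad d R a' b'
  have hpr : (0 : ℝ) < (p : ℝ) := by exact_mod_cast hp1
  have hpr' : (0 : ℝ) < (p' : ℝ) := by exact_mod_cast hp1'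
  set M := min (r / (p : ℝ)) (r' / (p' : ℝ)) with hM
  have hM0 : 0 ≤ M := by positivity
  have hM1 : M ≤ r / p := min_le_left _ _
  have hM2 : M ≤ r' / p' := min_le_right _ _
  have hsum : ∑ m ∈ bx a, ∑ m' ∈ bx a', FF α R (a, b, m, n) (a', b', m', n') =
      (cnt α p p' a a' (p' * r + p * r') : ℝ) * (4 * M) := by
    rw [← Finset.sum_product']
    unfold cnt
    rw [Finset.card_eq_sum_ones, Nat.cast_sum, Finset.sum_filter, Finset.sum_mul]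
    refine Finset.sum_congr rfl fun q _ => ?_
    unfold FF
    dsimp only
    rw [← hgdef, ← hp, ← hp']
    split_ifs <;> simp [hM]
    all_goals rfl
  rw [hsum]
  have h1 : (p' * r + p * r') * M ≤ 2 * (r * r') := by
    have e1 : (p' * r) * M ≤ r * r' := by
      calc (p' * r) * M ≤ (p' * r) * (r' / p') := mul_le_mul_of_nonneg_left hM2 (by positivity)
        _ = r * r' := by field_simp
    have e2 : (p * r') * M ≤ r * r' := by
      calc (p * r') * M ≤ (p * r') * (r / p) := mul_le_mul_of_nonneg_left hM1 (by positivity)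
        _ = r * r' := by field_simp
    nlinarith
  calc (cnt α p p' a a' (p' * r + p * r') : ℝ) * (4 * M)
      ≤ (K * (p' * r + p * r') * 2 ^ (∑ i, a i + ∑ i, a' i)) * (4 * M) :=
        mul_le_mul_of_nonneg_right hcnt (by positivity)
    _ = (4 * K * 2 ^ (∑ i, a i + ∑ i, a' i)) * ((p' * r + p * r') * M) := by ring
    _ ≤ (4 * K * 2 ^ (∑ i, a i + ∑ i, a' i)) * (2 * (r * r')) :=
        mul_le_mul_of_nonneg_left h1 (by positivity)
    _ = 8 * K * (r * r') * 2 ^ (∑ i, a i + ∑ i, a' i) := by ring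

/-- `R^(d+1) / 2^(R/4)` is bounded. -/
theorem bdd (d : ℕ) : ∃ C2 : ℝ, 0 < C2 ∧ ∀ R : ℕ, (R : ℝ) ^ (d + 1) ≤ C2 * 2 ^ (R / 4) := by
  have h := tendsto_pow_const_div_const_pow_of_one_lt (d + 1) (r := (2 : ℝ)) (by norm_num)
  -- n^(d+1) / 2^n → 0; use n = R/4 + 1
  obtain ⟨B, hB⟩ := h.bddAbove_range
  refine ⟨4 ^ (d + 1) * (|B| + 1) * 2, by positivity, fun R => ?_⟩
  have h1 : ((R / 4 + 1 : ℕ) : ℝ) ^ (d + 1) / 2 ^ (R / 4 + 1) ≤ |B| + 1 := by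
    have : ((R / 4 + 1 : ℕ) : ℝ) ^ (d + 1) / 2 ^ (R / 4 + 1) ≤ B := hB ⟨R / 4 + 1, rfl⟩
    exact this.trans ((le_abs_self B).trans (by linarith))
  have h2 : (R : ℝ) ≤ 4 * ((R / 4 + 1 : ℕ) : ℝ) := by
    have : R ≤ 4 * (R / 4 + 1) := by omega
    exact_mod_cast this
  rw [div_le_iff₀ (by positivity)] at h1
  calc (R : ℝ) ^ (d + 1) ≤ (4 * ((R / 4 + 1 : ℕ) : ℝ)) ^ (d + 1) :=
        pow_le_pow_left₀ (by positivity) h2 _
    _ = 4 ^ (d + 1) * ((R / 4 + 1 : ℕ) : ℝ) ^ (d + 1) := by rw [mul_pow]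
    _ ≤ 4 ^ (d + 1) * ((|B| + 1) * 2 ^ (R / 4 + 1)) :=
        mul_le_mul_of_nonneg_left h1 (by positivity)
    _ = 4 ^ (d + 1) * (|B| + 1) * 2 * 2 ^ (R / 4) := by rw [pow_succ]; ring

/-- sum over `n, n'` for fixed exponents. -/
theorem mid {d : ℕ} (hG : S_GCD) (α : Fin d → ℝ) (R : ℕ) (hR : 1 ≤ R) (K1 K2 : ℝ)
    (hK1 : 0 ≤ K1) (hK2 : 0 ≤ K2)
    (a a' : Fin d → ℕ) (b b' : ℕ)
    (h1 : ∀ n ∈ Finset.Ico (2 ^ b) (2 ^ (b + 1)), ∀ n' ∈ Finset.Ico (2 ^ b') (2 ^ (b' + 1)),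
      Nat.gcd n n' ≤ 2 ^ (R / 4) → 
      (cnt α (n / Nat.gcd n n') (n' / Nat.gcd n n') a a'
      ((n' / Nat.gcd n n' : ℕ) * rad d R a b + (n / Nat.gcd n n' : ℕ) * rad d R a' b') : ℝ) ≤
      K1 * ((n' / Nat.gcd n n' : ℕ) * rad d R a b + (n / Nat.gcd n n' : ℕ) * rad d R a' b') *
        2 ^ (∑ i, a i + ∑ i, a' i))
    (h2 : ∀ n ∈ Finset.Ico (2 ^ b) (2 ^ (b + 1)), ∀ n' ∈ Finset.Ico (2 ^ b') (2 ^ (b' + 1)),
      (cnt α (n / Nat.gcd n n') (n' / Nat.gcd n n') a a'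
      ((n' / Nat.gcd n n' : ℕ) * rad d R a b + (n / Nat.gcd n n' : ℕ) * rad d R a' b') : ℝ) ≤
      K2 * ((n' / Nat.gcd n n' : ℕ) * rad d R a b + (n / Nat.gcd n n' : ℕ) * rad d R a' b') *
        2 ^ (∑ i, a i + ∑ i, a' i)) :
    ∑ n ∈ Finset.Ico (2 ^ b) (2 ^ (b + 1)), ∑ n' ∈ Finset.Ico (2 ^ b') (2 ^ (b' + 1)),
      ∑ m ∈ bx a, ∑ m' ∈ bx a', FF α R (a, b, m, n) (a', b', m', n') ≤
      (8 * K1 + 8 * K2 * 18 / 2 ^ (R / 4)) *
        (1 / (((4 * d + 2 : ℝ) * R) ^ (d + 1) * 2 ^ (d + 1))) ^ 2 := by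
  classical
  set r := rad d R a b with hr
  set r' := rad d R a' b' with hr'
  have q1 : 0 < r := rad_pos hR a b
  have q2 : 0 < r' := rad_pos hR a' b'
  have hpos : ∀ (c x : ℕ), x ∈ Finset.Ico (2 ^ c) (2 ^ (c + 1)) → 0 < x := fun c x hx =>
    lt_of_lt_of_le (by positivity) (Finset.mem_Ico.1 hx).1
  have hle : ∀ n ∈ Finset.Ico (2 ^ b) (2 ^ (b + 1)), ∀ n' ∈ Finset.Ico (2 ^ b') (2 ^ (b' + 1)),
      ∑ m ∈ bx a, ∑ m' ∈ bx a', FF α R (a, b, m, n) (a', b', m', n') ≤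
        8 * K1 * (r * r') * 2 ^ (∑ i, a i + ∑ i, a' i) +
        if 2 ^ (R / 4) < Nat.gcd n n' then
          8 * K2 * (r * r') * 2 ^ (∑ i, a i + ∑ i, a' i) else 0 := by
    intro n hn n' hn'
    by_cases hgc : 2 ^ (R / 4) < Nat.gcd n n'
    · rw [if_pos hgc]
      have := inner α R hR a a' b b' n n' (hpos _ _ hn) (hpos _ _ hn') K2 hK2 (h2 n hn n' hn')
      have hz : 0 ≤ 8 * K1 * (r * r') * 2 ^ (∑ i, a i + ∑ i, a' i) := by positivity
      linarith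
    · rw [if_neg hgc]
      have := inner α R hR a a' b b' n n' (hpos _ _ hn) (hpos _ _ hn') K1 hK1
        (h1 n hn n' hn' (not_lt.1 hgc))
      linarith
  have hstep : ∑ n ∈ Finset.Ico (2 ^ b) (2 ^ (b + 1)), ∑ n' ∈ Finset.Ico (2 ^ b') (2 ^ (b' + 1)),
      ∑ m ∈ bx a, ∑ m' ∈ bx a', FF α R (a, b, m, n) (a', b', m', n') ≤
      ∑ n ∈ Finset.Ico (2 ^ b) (2 ^ (b + 1)), ∑ n' ∈ Finset.Ico (2 ^ b') (2 ^ (b' + 1)),
        (8 * K1 * (r * r') * 2 ^ (∑ i, a i + ∑ i, a' i) +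
        if 2 ^ (R / 4) < Nat.gcd n n' then
          8 * K2 * (r * r') * 2 ^ (∑ i, a i + ∑ i, a' i) else 0) :=
    Finset.sum_le_sum fun n hn => Finset.sum_le_sum fun n' hn' => hle n hn n' hn'
  refine hstep.trans ?_
  rw [← Finset.sum_product', Finset.sum_add_distrib, Finset.sum_const, ← Finset.sum_filter,
    Finset.sum_const, Finset.card_product]
  have hcardn : ∀ c : ℕ, (Finset.Ico (2 ^ c) (2 ^ (c + 1))).card = 2 ^ c := by
    intro c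
    rw [Nat.card_Ico, pow_succ]
    omega
  rw [hcardn, hcardn, nsmul_eq_mul, nsmul_eq_mul]
  have hG' := hG b b' (2 ^ (R / 4)) Nat.one_le_two_pow
  set c := ((Finset.Ico (2 ^ b) (2 ^ (b + 1)) ×ˢ Finset.Ico (2 ^ b') (2 ^ (b' + 1))).filter fun q =>
    2 ^ (R / 4) < Nat.gcd q.1 q.2).card with hc
  have hcr : (c : ℝ) * 2 ^ (R / 4) ≤ 18 * 2 ^ (b + b') := by exact_mod_cast hG'
  have hcr2 : (c : ℝ) ≤ 18 * 2 ^ (b + b') / 2 ^ (R / 4) := by
    rw [le_div_iff₀ (by positivity)]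
    exact hcr
  have e1 := rad_mul (R := R) a b
  have e2 := rad_mul (R := R) a' b'
  rw [← hr] at e1
  rw [← hr'] at e2
  set κ := 1 / (((4 * d + 2 : ℝ) * R) ^ (d + 1) * 2 ^ (d + 1)) with hκ
  have e3 : κ ^ 2 = (r * r') * 2 ^ (∑ i, a i + ∑ i, a' i) * 2 ^ (b + b') := by
    calc κ ^ 2 = κ * κ := sq κ
      _ = (r * 2 ^ (∑ i, a i + b)) * (r' * 2 ^ (∑ i, a' i + b')) := by rw [e1, e2]
      _ = _ := by rw [pow_add, pow_add, pow_add, pow_add]; ring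
  have hgoal : ((2 ^ b * 2 ^ b' : ℕ) : ℝ) * (8 * K1 * (r * r') * 2 ^ (∑ i, a i + ∑ i, a' i)) +
      (c : ℝ) * (8 * K2 * (r * r') * 2 ^ (∑ i, a i + ∑ i, a' i)) ≤
      (8 * K1 + 8 * K2 * 18 / 2 ^ (R / 4)) * κ ^ 2 := by
    have f1 : ((2 ^ b * 2 ^ b' : ℕ) : ℝ) * (8 * K1 * (r * r') * 2 ^ (∑ i, a i + ∑ i, a' i)) =
        8 * K1 * κ ^ 2 := by
      rw [e3]
      push_cast
      rw [pow_add (2 : ℝ) b b']
      ring
    have f2 : (c : ℝ) * (8 * K2 * (r * r') * 2 ^ (∑ i, a i + ∑ i, a' i)) ≤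
        (18 * 2 ^ (b + b') / 2 ^ (R / 4)) * (8 * K2 * (r * r') * 2 ^ (∑ i, a i + ∑ i, a' i)) :=
      mul_le_mul_of_nonneg_right hcr2 (by positivity)
    have f3 : (18 * 2 ^ (b + b') / 2 ^ (R / 4)) *
        (8 * K2 * (r * r') * 2 ^ (∑ i, a i + ∑ i, a' i)) =
        8 * K2 * 18 / 2 ^ (R / 4) * κ ^ 2 := by
      rw [e3]
      ring
    rw [f1]
    calc _ ≤ 8 * K1 * κ ^ 2 + 8 * K2 * 18 / 2 ^ (R / 4) * κ ^ 2 := by linarith
      _ = _ := by ring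
  exact hgoal

theorem main : S_VOL → S_OVL → S_GOOD → S_BADC → S_GCD → S_FIRST → S_SEC := by
  classical
  intro _ hO hGood hBad hG hF d α c0 i0 hNA
  have hd : 1 ≤ d := Nat.succ_le_of_lt (lt_of_le_of_lt (Nat.zero_le _) i0.2)
  obtain ⟨R1, hR1⟩ := hGood d α c0 hd hNA
  obtain ⟨C, hC0, hC⟩ := hBad d α c0 hd hNA
  obtain ⟨c, hc0, R2, hR2⟩ := hF d α i0
  obtain ⟨C2, hC20, hC2⟩ := bdd d
  set K1 : ℝ := 32 * 12 ^ (2 * d) with hK1
  have hK10 : 0 ≤ K1 := by positivity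
  refine ⟨1 + (8 * K1 + 8 * (C * C2) * 18), by positivity, max (max R1 R2) 1, fun R hR => ?_⟩
  have hRR1 : R1 ≤ R := le_trans (le_trans (le_max_left _ _) (le_max_left _ _)) hR
  have hRR2 : R2 ≤ R := le_trans (le_trans (le_max_right _ _) (le_max_left _ _)) hR
  have hR0 : 1 ≤ R := le_trans (le_max_right _ _) hR
  have hRr : (1 : ℝ) ≤ (R : ℝ) := by exact_mod_cast hR0
  -- split the diagonal
  have hsplit : ∑ v ∈ FV d R i0, ∑ v' ∈ FV d R i0, (volume (EE α R v ∩ EE α R v')).toReal ≤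
      ∑ v ∈ FV d R i0, (volume (EE α R v)).toReal +
      ∑ v ∈ FV d R i0, ∑ v' ∈ FV d R i0, FF α R v v' := by
    rw [← Finset.sum_add_distrib]
    refine Finset.sum_le_sum fun v hv => ?_
    rw [← Finset.add_sum_erase _ _ hv]
    have t1 : (volume (EE α R v ∩ EE α R v)).toReal = (volume (EE α R v)).toReal := by
      rw [inter_self]
    rw [t1]
    have t2 : ∑ v' ∈ (FV d R i0).erase v, (volume (EE α R v ∩ EE α R v')).toReal ≤
        ∑ v' ∈ (FV d R i0).erase v, FF α R v v' :=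
      Finset.sum_le_sum fun v' hv' =>
        ovl hO α R hR0 i0 hv (Finset.mem_of_mem_erase hv') (Finset.ne_of_mem_erase hv').symm
    have t3 : ∑ v' ∈ (FV d R i0).erase v, FF α R v v' ≤ ∑ v' ∈ FV d R i0, FF α R v v' :=
      Finset.sum_le_sum_of_subset_of_nonneg (Finset.erase_subset _ _)
        (fun _ _ _ => FF_nonneg _ _ _ _)
    linarith
  -- expand
  have hexp : ∑ v ∈ FV d R i0, ∑ v' ∈ FV d R i0, FF α R v v' ≤
      ∑ a ∈ AA d R, ∑ b ∈ Finset.Ico R (2 * R), ∑ a' ∈ AA d R, ∑ b' ∈ Finset.Ico R (2 * R),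
      ∑ n ∈ Finset.Ico (2 ^ b) (2 ^ (b + 1)), ∑ n' ∈ Finset.Ico (2 ^ b') (2 ^ (b' + 1)),
      ∑ m ∈ bx a, ∑ m' ∈ bx a', FF α R (a, b, m, n) (a', b', m', n') := by
    have s1 : ∑ v ∈ FV d R i0, ∑ v' ∈ FV d R i0, FF α R v v' ≤
        ∑ v ∈ FV d R i0, ∑ a' ∈ AA d R, ∑ b' ∈ Finset.Ico R (2 * R),
          ∑ n' ∈ Finset.Ico (2 ^ b') (2 ^ (b' + 1)), ∑ m' ∈ bx a', FF α R v (a', b', m', n') :=
      Finset.sum_le_sum fun v _ => sum_FV_le i0 (fun v' => FF α R v v') (fun _ => FF_nonneg _ _ _ _)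
    refine s1.trans ?_
    refine (sum_FV_le i0 (fun v => ∑ a' ∈ AA d R, ∑ b' ∈ Finset.Ico R (2 * R),
          ∑ n' ∈ Finset.Ico (2 ^ b') (2 ^ (b' + 1)), ∑ m' ∈ bx a', FF α R v (a', b', m', n'))
          (fun v => Finset.sum_nonneg fun _ _ => Finset.sum_nonneg fun _ _ =>
            Finset.sum_nonneg fun _ _ => Finset.sum_nonneg fun _ _ => FF_nonneg _ _ _ _)).trans ?_
    refine Finset.sum_le_sum fun a _ => Finset.sum_le_sum fun b _ => le_of_eq ?_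
    -- reorder sums
    calc ∑ n ∈ Finset.Ico (2 ^ b) (2 ^ (b + 1)), ∑ m ∈ bx a, ∑ a' ∈ AA d R,
          ∑ b' ∈ Finset.Ico R (2 * R), ∑ n' ∈ Finset.Ico (2 ^ b') (2 ^ (b' + 1)),
            ∑ m' ∈ bx a', FF α R (a, b, m, n) (a', b', m', n')
        = ∑ n ∈ Finset.Ico (2 ^ b) (2 ^ (b + 1)), ∑ a' ∈ AA d R,
          ∑ b' ∈ Finset.Ico R (2 * R), ∑ n' ∈ Finset.Ico (2 ^ b') (2 ^ (b' + 1)), ∑ m ∈ bx a,
            ∑ m' ∈ bx a', FF α R (a, b, m, n) (a', b', m', n') := by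
          refine Finset.sum_congr rfl fun n _ => ?_
          rw [Finset.sum_comm]
          refine Finset.sum_congr rfl fun a' _ => ?_
          rw [Finset.sum_comm]
          refine Finset.sum_congr rfl fun b' _ => ?_
          rw [Finset.sum_comm]
      _ = _ := by
          rw [Finset.sum_comm]
          refine Finset.sum_congr rfl fun a' _ => ?_
          rw [Finset.sum_comm]
  set κ := 1 / (((4 * d + 2 : ℝ) * R) ^ (d + 1) * 2 ^ (d + 1)) with hκ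
  have hκ0 : 0 ≤ κ := by rw [hκ]; positivity
  have hbox : ∀ a ∈ AA d R, ∀ i, 3 * R ≤ a i ∧ a i < 4 * R := fun a ha i =>
    Finset.mem_Ico.1 ((Fintype.mem_piFinset.1 ha) i)
  have hmain : ∀ a ∈ AA d R, ∀ b ∈ Finset.Ico R (2 * R), ∀ a' ∈ AA d R,
      ∀ b' ∈ Finset.Ico R (2 * R),
      ∑ n ∈ Finset.Ico (2 ^ b) (2 ^ (b + 1)), ∑ n' ∈ Finset.Ico (2 ^ b') (2 ^ (b' + 1)),
      ∑ m ∈ bx a, ∑ m' ∈ bx a', FF α R (a, b, m, n) (a', b', m', n') ≤
      (8 * K1 + 8 * (C * C2) * 18) * κ ^ 2 := by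
    intro a ha b hb a' ha' b' hb'
    have hb1 := Finset.mem_Ico.1 hb
    have hb1' := Finset.mem_Ico.1 hb'
    have hdat : ∀ n ∈ Finset.Ico (2 ^ b) (2 ^ (b + 1)), ∀ n' ∈ Finset.Ico (2 ^ b') (2 ^ (b' + 1)),
        0 < Nat.gcd n n' ∧ Nat.gcd n n' * (n / Nat.gcd n n') = n ∧
        Nat.gcd n n' * (n' / Nat.gcd n n') = n' ∧ 1 ≤ n / Nat.gcd n n' ∧
        1 ≤ n' / Nat.gcd n n' ∧ Nat.Coprime (n / Nat.gcd n n') (n' / Nat.gcd n n') := by
      intro n hn n' hn'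
      have hn0 : 0 < n := lt_of_lt_of_le (by positivity) (Finset.mem_Ico.1 hn).1
      have hn0' : 0 < n' := lt_of_lt_of_le (by positivity) (Finset.mem_Ico.1 hn').1
      have hg : 0 < Nat.gcd n n' := Nat.gcd_pos_of_pos_left _ hn0
      have ep : Nat.gcd n n' * (n / Nat.gcd n n') = n := Nat.mul_div_cancel' (Nat.gcd_dvd_left n n')
      have ep' : Nat.gcd n n' * (n' / Nat.gcd n n') = n' :=
        Nat.mul_div_cancel' (Nat.gcd_dvd_right n n')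
      refine ⟨hg, ep, ep', ?_, ?_, Nat.coprime_div_gcd_div_gcd hg⟩
      · rcases Nat.eq_zero_or_pos (n / Nat.gcd n n') with h0 | h0
        · rw [h0] at ep; omega
        · exact h0
      · rcases Nat.eq_zero_or_pos (n' / Nat.gcd n n') with h0 | h0
        · rw [h0] at ep'; omega
        · exact h0
    have hmid := mid hG α R hR0 K1 (C * (R : ℝ) ^ (d + 1)) hK10 (by positivity) a a' b b'
      (by
        intro n hn n' hn' hgc
        obtain ⟨hg, ep, ep', hp, hp', hcop⟩ := hdat n hn n' hn'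
        have h1 := Finset.mem_Ico.1 hn
        have h2 := Finset.mem_Ico.1 hn'
        exact hR1 R hRR1 a a' b b' (Nat.gcd n n') _ _ (hbox a ha) (hbox a' ha') hb1.1 hb1.2
          hb1'.1 hb1'.2 (by rw [ep]; exact h1.1) (by rw [ep]; exact h1.2)
          (by rw [ep']; exact h2.1) (by rw [ep']; exact h2.2) hcop hgc)
      (by
        intro n hn n' hn'
        obtain ⟨hg, ep, ep', hp, hp', hcop⟩ := hdat n hn n' hn'
        have h1 := Finset.mem_Ico.1 hn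
        have h2 := Finset.mem_Ico.1 hn'
        have l1 : n / Nat.gcd n n' < 2 ^ (2 * R) := by
          have t1 : n / Nat.gcd n n' ≤ n := Nat.div_le_self _ _
          have t2 : 2 ^ (b + 1) ≤ 2 ^ (2 * R) := Nat.pow_le_pow_right (by norm_num) (by omega)
          omega
        have l2 : n' / Nat.gcd n n' < 2 ^ (2 * R) := by
          have t1 : n' / Nat.gcd n n' ≤ n' := Nat.div_le_self _ _
          have t2 : 2 ^ (b' + 1) ≤ 2 ^ (2 * R) := Nat.pow_le_pow_right (by norm_num) (by omega)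
          omega
        have hp0 : (0 : ℝ) < ((n / Nat.gcd n n' : ℕ) : ℝ) := by exact_mod_cast hp
        have hp0' : (0 : ℝ) < ((n' / Nat.gcd n n' : ℕ) : ℝ) := by exact_mod_cast hp'
        have r1 := rad_pos hR0 a b
        have r2 := rad_pos hR0 a' b'
        exact hC R hR0 a a' _ _ _ (hbox a ha) (hbox a' ha') hp hp' l1 l2 hcop (by positivity))
    refine hmid.trans (mul_le_mul_of_nonneg_right ?_ (by positivity))
    have : C * (R : ℝ) ^ (d + 1) / 2 ^ (R / 4) ≤ C * C2 := by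
      rw [div_le_iff₀ (by positivity), mul_assoc]
      exact mul_le_mul_of_nonneg_left (hC2 R) hC0.le
    have e : 8 * (C * (R : ℝ) ^ (d + 1)) * 18 / 2 ^ (R / 4) =
        144 * (C * (R : ℝ) ^ (d + 1) / 2 ^ (R / 4)) := by ring
    rw [e]
    linarith
  have hcA : (AA d R).card = R ^ d := by
    unfold AA
    rw [Fintype.card_piFinset]
    simp
    congr 1
    omega
  have hcB : (Finset.Ico R (2 * R)).card = R := by
    rw [Nat.card_Ico]
    omega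
  have htot : ∑ a ∈ AA d R, ∑ b ∈ Finset.Ico R (2 * R), ∑ a' ∈ AA d R,
      ∑ b' ∈ Finset.Ico R (2 * R),
      ∑ n ∈ Finset.Ico (2 ^ b) (2 ^ (b + 1)), ∑ n' ∈ Finset.Ico (2 ^ b') (2 ^ (b' + 1)),
      ∑ m ∈ bx a, ∑ m' ∈ bx a', FF α R (a, b, m, n) (a', b', m', n') ≤
      8 * K1 + 8 * (C * C2) * 18 := by
    have u1 : ∑ a ∈ AA d R, ∑ b ∈ Finset.Ico R (2 * R), ∑ a' ∈ AA d R,
      ∑ b' ∈ Finset.Ico R (2 * R),
      ∑ n ∈ Finset.Ico (2 ^ b) (2 ^ (b + 1)), ∑ n' ∈ Finset.Ico (2 ^ b') (2 ^ (b' + 1)),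
      ∑ m ∈ bx a, ∑ m' ∈ bx a', FF α R (a, b, m, n) (a', b', m', n') ≤
      ∑ _a ∈ AA d R, ∑ _b ∈ Finset.Ico R (2 * R), ∑ _a' ∈ AA d R,
      ∑ _b' ∈ Finset.Ico R (2 * R), (8 * K1 + 8 * (C * C2) * 18) * κ ^ 2 :=
      Finset.sum_le_sum fun a ha => Finset.sum_le_sum fun b hb => Finset.sum_le_sum fun a' ha' =>
        Finset.sum_le_sum fun b' hb' => hmain a ha b hb a' ha' b' hb'
    refine u1.trans ?_
    simp only [Finset.sum_const, hcA, hcB, nsmul_eq_mul]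
    have hκ1 : (R : ℝ) ^ (d + 1) * κ ≤ 1 := by
      rw [hκ, mul_one_div, div_le_one (by positivity), mul_pow]
      have w1 : (1 : ℝ) ≤ (4 * d + 2 : ℝ) ^ (d + 1) := by
        apply one_le_pow₀
        have : (0 : ℝ) ≤ (d : ℝ) := by positivity
        linarith
      have w2 : (1 : ℝ) ≤ (2 : ℝ) ^ (d + 1) := one_le_pow₀ (by norm_num)
      have w3 : (0 : ℝ) ≤ (R : ℝ) ^ (d + 1) := by positivity
      calc (R : ℝ) ^ (d + 1) = 1 * (R : ℝ) ^ (d + 1) * 1 := by ring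
        _ ≤ (4 * d + 2 : ℝ) ^ (d + 1) * (R : ℝ) ^ (d + 1) * 2 ^ (d + 1) := by gcongr
    have hκ2 : 0 ≤ (R : ℝ) ^ (d + 1) * κ := by positivity
    have hfin : ((R ^ d : ℕ) : ℝ) * ((R : ℝ) * (((R ^ d : ℕ) : ℝ) * ((R : ℝ) *
        ((8 * K1 + 8 * (C * C2) * 18) * κ ^ 2)))) =
        (8 * K1 + 8 * (C * C2) * 18) * ((R : ℝ) ^ (d + 1) * κ) ^ 2 := by
      push_cast
      ring
    rw [hfin]
    have hsq : ((R : ℝ) ^ (d + 1) * κ) ^ 2 ≤ 1 := pow_le_one₀ hκ2 hκ1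
    have hK : 0 ≤ 8 * K1 + 8 * (C * C2) * 18 := by positivity
    nlinarith
  have hfirst := (hR2 R hRR2).2
  linarith

end Pool.Agent.W60.DM.Sec
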